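import Pool.Agent.Lib.MP_1a91b9_nuT.D3.Tors
import Pool.Agent.Lib.MP_1a91b9_nuT.S3.Main

/-!
# Stream D3: interface, places of `ℂ` above a prime number `q`
-/

set_option autoImplicit false

namespace Pool.Agent.Lib.MP_1a91b9_nuT.Ell

variable [CD]

open Complex

noncomputable section

/-- A place of `ℂ` above `q`. -/
def Pl (q : ℕ) (A : ValuationSubring ℂ) : Prop := (q : ℂ)⁻¹ ∉ A

/-- A natural number prime to `q` is a unit of `A`. -/
theorem d3_inv {q : ℕ} (A : ValuationSubring ℂ) (hA : Pl q A) (n : ℕ) (hn : n.Coprime q) :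
    (n : ℂ)⁻¹ ∈ A := by
  rw [← A.valuation_le_one_iff, map_inv₀, v_cop hA hn, inv_one]

/-- `q`-integrality of `E1` at torsion points of order prime to `q`. -/
theorem d3_mem {q : ℕ} (hq : q.Prime) (A : ValuationSubring ℂ) (hA : Pl q A) (m : ℕ)
    (hm : m.Coprime q) (z : ℂ) (hz : ∃ l : ℤ × ℤ, (m : ℂ) * z = lp l) : E1 z / Om ∈ A := by
  obtain ⟨l, hl⟩ := hz
  have hmz : (m : ℂ) * z ∈ PP.lattice := by
    rw [hl]
    exact S3.lp_mem l
  exact E1q_mem hq.one_lt.ne' hA hm hmz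

/-- There are places above every prime number. -/
theorem d3_exists {q : ℕ} (hq : q.Prime) : ∃ A : ValuationSubring ℂ, Pl q A := by
  obtain ⟨A, h | h⟩ := exists_Aq hq.one_lt.ne'
  · exact ⟨A, h⟩
  · exact absurd h hq.ne_zero

end

end Pool.Agent.Lib.MP_1a91b9_nuT.Ell
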