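import Pool.Agent.Lib.MP_1a91b9_nuT.S3.Main
import Pool.Agent.Lib.MP_1a91b9_nuX.DB.ValE
import Pool.Agent.Lib.MP_1a91b9_nuX.DB.UniA

/-!
# Stream D3, file Tors: `E1` at torsion points of order prime to `q` is integral at `q`
-/

set_option autoImplicit false

namespace Pool.Agent.Lib.MP_1a91b9_nuT.Ell

variable [CD]

open Complex NumberField Pool.Agent.Lib.MP_1a91b9_nuT.S3

noncomputable section

variable {A : ValuationSubring ℂ}

theorem mul_succ (k : ℕ) (z : ℂ) : ((k + 1 : ℕ) : ℂ) * z = (k : ℂ) * z + z := by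
  push_cast
  ring

/-- The exact order of a torsion point. -/
theorem exact_order {q m : ℕ} (hm : m.Coprime q) (hq : q ≠ 1) {z : ℂ}
    (hmz : (m : ℂ) * z ∈ PP.lattice) :
    ∃ n : ℕ, 0 < n ∧ n.Coprime q ∧ (n : ℂ) * z ∈ PP.lattice ∧
      ∀ k : ℕ, 0 < k → k < n → (k : ℂ) * z ∉ PP.lattice := by
  classical
  have hm0 : 0 < m := by
    rcases Nat.eq_zero_or_pos m with h | h
    · rw [h, Nat.coprime_zero_left] at hm
      exact absurd hm hq
    · exact h
  have hex : ∃ n : ℕ, 0 < n ∧ (n : ℂ) * z ∈ PP.lattice := ⟨m, hm0, hmz⟩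
  obtain ⟨h1, h2⟩ := Nat.find_spec hex
  have hmin : ∀ k : ℕ, 0 < k → k < Nat.find hex → (k : ℂ) * z ∉ PP.lattice := fun k hk hkn h =>
    Nat.find_min hex hkn ⟨hk, h⟩
  refine ⟨Nat.find hex, h1, ?_, h2, hmin⟩
  have hdvd : Nat.find hex ∣ m := by
    by_contra hnd
    have h3 : 0 < m % Nat.find hex := Nat.pos_of_ne_zero fun h => hnd (Nat.dvd_of_mod_eq_zero h)
    refine hmin _ h3 (Nat.mod_lt _ h1) ?_
    have h4 : (m : ℂ) = (Nat.find hex : ℂ) * ((m / Nat.find hex : ℕ) : ℂ) +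
        ((m % Nat.find hex : ℕ) : ℂ) := by
      exact_mod_cast (Nat.div_add_mod m (Nat.find hex)).symm
    have h5 : ((m % Nat.find hex : ℕ) : ℂ) * z = (m : ℂ) * z -
        (((m / Nat.find hex : ℕ) : ℤ) : ℂ) * ((Nat.find hex : ℂ) * z) := by
      rw [h4, Int.cast_natCast]
      ring
    rw [h5]
    exact sub_mem hmz (mul_int_mem h2 _)
  exact Nat.Coprime.coprime_dvd_left hdvd hm

theorem v_cop {q : ℕ} (hA : (q : ℂ)⁻¹ ∉ A) {n : ℕ} (hn : n.Coprime q) :
    A.valuation (n : ℂ) = 1 := by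
  have hle : A.valuation (n : ℂ) ≤ 1 := by
    have := v_int_le (A := A) (n : ℤ)
    rwa [Int.cast_natCast] at this
  refine le_antisymm hle ?_
  by_contra h
  push Not at h
  have hq : A.valuation (q : ℂ) < 1 := by
    by_contra h
    push Not at h
    apply hA
    rw [← A.valuation_le_one_iff, map_inv₀]
    exact inv_le_one_of_one_le₀ h
  have hb := Nat.gcd_eq_gcd_ab n q
  rw [hn] at hb
  have e : (1 : ℂ) = (n : ℂ) * ((n.gcdA q : ℤ) : ℂ) + (q : ℂ) * ((n.gcdB q : ℤ) : ℂ) := by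
    exact_mod_cast hb
  have h1 : A.valuation (1 : ℂ) < 1 := by
    rw [e]
    refine Valuation.map_add_lt _ ?_ ?_
    · rw [map_mul]
      exact mul_lt_one_of_lt_of_le h (v_int_le _)
    · rw [map_mul]
      exact mul_lt_one_of_lt_of_le hq (v_int_le _)
  rw [map_one] at h1
  exact lt_irrefl _ h1

/-- The abscissa of a torsion point of order prime to `q` is integral at `q`. -/
theorem Xq_mem {q : ℕ} (hA : (q : ℂ)⁻¹ ∉ A) {m : ℕ}
    (hm : m.Coprime q) {z : ℂ} (hmz : (m : ℂ) * z ∈ PP.lattice) (hz : z ∉ PP.lattice) :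
    X z ∈ A := by
  classical
  obtain ⟨u, -, h0, h1⟩ := MP_1a91b9_nuX.DB.exists_uniA
  have hu0 : u z ≠ 0 := fun h => hz ((h0 z).1 h)
  have hmu : MP_1a91b9_nuX.DB.sm ℂ ((m : ℕ) : 𝓞 K) (u z) = 0 := by
    rw [MP_1a91b9_nuX.DB.sm_nat, ← map_nsmul, nsmul_eq_mul]
    exact (h0 _).2 hmz
  have hv : A.valuation (algebraMap K ℂ (((m : ℕ) : 𝓞 K) : K)) = 1 := by
    have e : (((m : ℕ) : 𝓞 K) : K) = (m : K) := map_natCast (algebraMap (𝓞 K) K) m
    rw [e, map_natCast]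
    exact v_cop hA hm
  have hk := MP_1a91b9_nuX.DB.not_ker_torsO A.valuation hu0 hv hmu
  have h2 := (MP_1a91b9_nuX.DB.not_ker A.valuation hk).2.1
  rw [(h1 z hz).1] at h2
  exact (A.valuation_le_one_iff _).1 h2

/-- The values of `E1` at the torsion points of order prime to `q`, divided by the period, are
integral at `q`. -/
theorem E1q_mem {q : ℕ} (hq : q ≠ 1) (hA : (q : ℂ)⁻¹ ∉ A) {m : ℕ}
    (hm : m.Coprime q) {z : ℂ} (hmz : (m : ℂ) * z ∈ PP.lattice) : E1 z / Om ∈ A := by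
  by_cases hz : z ∈ PP.lattice
  · rw [E1_coe hz, zero_div]
    exact A.zero_mem
  obtain ⟨n, hn0, hn, hnz, hmin⟩ := exact_order hm hq hmz
  have hn1 : n ≠ 1 := by
    rintro rfl
    rw [Nat.cast_one, one_mul] at hnz
    exact hz hnz
  obtain ⟨N, rfl⟩ : ∃ k, n = k + 2 := ⟨n - 2, by omega⟩
  have hXk : ∀ k : ℕ, 0 < k → k < N + 2 → A.valuation (X ((k : ℂ) * z)) ≤ 1 := by
    intro k hk hkn
    rw [A.valuation_le_one_iff]
    refine Xq_mem hA hn ?_ (hmin k hk hkn)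
    have := mul_int_mem hnz (k : ℤ)
    have e : ((k : ℤ) : ℂ) * (((N + 2 : ℕ) : ℂ) * z) = ((N + 2 : ℕ) : ℂ) * ((k : ℂ) * z) := by
      rw [Int.cast_natCast]
      ring
    rwa [e] at this
  have key : ∀ k : ℕ, k + 1 < N + 2 →
      A.valuation (E1 (((k + 1 : ℕ) : ℂ) * z) / Om - ((k + 1 : ℕ) : ℂ) * (E1 z / Om)) ≤ 1 := by
    intro k
    induction k with
    | zero =>
      intro _
      rw [zero_add, Nat.cast_one, one_mul, one_mul, sub_self, map_zero]
      exact zero_le_one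
    | succ k ih =>
      intro hk
      have ih1 := ih (by omega)
      have h1 := hmin (k + 1) (by omega) (by omega)
      have h2 := hmin (k + 1 + 1) (by omega) hk
      rw [mul_succ (k + 1)] at h2
      have h3 := sl_sq h1 hz h2
      have h4 : A.valuation (sl (((k + 1 : ℕ) : ℂ) * z) z) ≤ 1 := by
        by_contra hc
        push Not at hc
        have h5 : 1 < A.valuation (sl (((k + 1 : ℕ) : ℂ) * z) z) ^ 2 := one_lt_pow₀ hc (by norm_num)
        rw [← map_pow, ← h3] at h5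
        refine absurd h5 (not_lt.2 (Valuation.map_add_le _ (Valuation.map_add_le _ ?_ ?_) ?_))
        · exact hXk (k + 1) (by omega) (by omega)
        · have := hXk 1 (by omega) (by omega)
          rwa [Nat.cast_one, one_mul] at this
        · rw [← mul_succ]
          exact hXk (k + 1 + 1) (by omega) hk
      have e : E1 (((k + 1 + 1 : ℕ) : ℂ) * z) / Om - ((k + 1 + 1 : ℕ) : ℂ) * (E1 z / Om) =
          sl (((k + 1 : ℕ) : ℂ) * z) z +
            (E1 (((k + 1 : ℕ) : ℂ) * z) / Om - ((k + 1 : ℕ) : ℂ) * (E1 z / Om)) := by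
        rw [sl, mul_succ (k + 1), mul_succ (k + 1)]
        ring
      rw [e]
      exact Valuation.map_add_le _ h4 ih1
  have h := key N (by omega)
  have e : ((N + 1 : ℕ) : ℂ) * z = -z + ((N + 2 : ℕ) : ℂ) * z := by
    push_cast
    ring
  rw [e, E1_add hnz, E1_neg] at h
  have e2 : -E1 z / Om - ((N + 1 : ℕ) : ℂ) * (E1 z / Om) = -(((N + 2 : ℕ) : ℂ) * (E1 z / Om)) := by
    push_cast
    ring
  rw [e2, Valuation.map_neg, map_mul, v_cop hA hn, one_mul] at h
  exact (A.valuation_le_one_iff _).1 h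


/-- There is a valuation ring of `ℂ` above a prime. -/
theorem exists_Aq {q : ℕ} (hq : q ≠ 1) : ∃ A : ValuationSubring ℂ, (q : ℂ)⁻¹ ∉ A ∨ q = 0 := by
  rcases Nat.eq_zero_or_pos q with h0 | h0
  · exact ⟨⊤, Or.inr h0⟩
  have h2 : (q : ℂ) ∈ (⊥ : Subring ℂ) := by
    have := intCast_mem (⊥ : Subring ℂ) (q : ℤ)
    exact_mod_cast this
  have hI : Ideal.span {(⟨q, h2⟩ : (⊥ : Subring ℂ))} ≠ ⊤ := by
    intro h
    rw [Ideal.span_singleton_eq_top] at h
    obtain ⟨⟨b, hb⟩, e⟩ := isUnit_iff_exists_inv.mp h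
    obtain ⟨n, rfl⟩ := Subring.mem_bot.1 hb
    have e2 : (q : ℂ) * n = 1 := congrArg Subtype.val e
    have e3 : (q : ℤ) * n = 1 := by exact_mod_cast e2
    have h3 := Int.eq_one_or_neg_one_of_mul_eq_one e3
    omega
  obtain ⟨B, _, hB⟩ := Ideal.image_subset_nonunits_valuationSubring _ hI
  refine ⟨B, Or.inl ?_⟩
  have h3 : (q : ℂ) ∈ B.nonunits := hB ⟨⟨q, h2⟩, Ideal.mem_span_singleton_self _, rfl⟩
  rcases B.mem_nonunits_iff_or.1 h3 with h | h
  · exact absurd h (by exact_mod_cast h0.ne')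
  · exact h

end

end Pool.Agent.Lib.MP_1a91b9_nuT.Ell
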